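import Pool.Agent.L7h80.PC.Stage

set_option autoImplicit false

/-!
# Caps of the three kinds of tori, and chains in groups acting on complete linear orders
-/

namespace Pool.Agent.L7h80.PC

open Pool.Agent.TH821.Hex

section caps
variable {Ω : Type*} [LinearOrder Ω]

theorem le_pow {g : Ω ≃o Ω} {v : Ω} (h : v ≤ g v) : ∀ k : ℕ, v ≤ (g ^ k) v := by
  intro k
  induction k with
  | zero => exact le_rfl
  | succ k ih => rw [pow_succ]; exact ih.trans ((g ^ k).le_iff_le.mpr h)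

theorem pow_le {g : Ω ≃o Ω} {v : Ω} (h : g v ≤ v) : ∀ k : ℕ, (g ^ k) v ≤ v := by
  intro k
  induction k with
  | zero => exact le_rfl
  | succ k ih => rw [pow_succ]; exact ((g ^ k).le_iff_le.mpr h).trans ih

theorem lt_pow {g : Ω ≃o Ω} {v : Ω} (h : v < g v) {k : ℕ} (hk : 1 ≤ k) : v < (g ^ k) v := by
  obtain ⟨m, rfl⟩ : ∃ m, k = m + 1 := ⟨k - 1, by omega⟩
  rw [pow_succ]
  exact (le_pow h.le m).trans_lt ((g ^ m).lt_iff_lt.mpr h)

theorem pow_lt {g : Ω ≃o Ω} {v : Ω} (h : g v < v) {k : ℕ} (hk : 1 ≤ k) : (g ^ k) v < v := by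
  obtain ⟨m, rfl⟩ : ∃ m, k = m + 1 := ⟨k - 1, by omega⟩
  rw [pow_succ]
  exact ((g ^ m).lt_iff_lt.mpr h).trans_le (pow_le h.le m)

/-- `f` follows `w` if `f ^ m = w ^ k`, `m ≥ 1`, `k ≥ 0`. -/
theorem follows_solid {w f : Ω ≃o Ω} (hc : Commute f w) {m k : ℕ} (hm : 1 ≤ m)
    (h : f ^ m = w ^ k) :
    (∀ v, w (f v) = f (w v)) ∧ (∀ v, v ≤ w v → v ≤ f v) ∧ (∀ v, w v ≤ v → f v ≤ v) := by
  refine ⟨fun v => ?_, fun v hv => ?_, fun v hv => ?_⟩
  · rw [← RelIso.mul_apply, ← hc.eq, RelIso.mul_apply]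
  · by_contra h1
    rw [not_le] at h1
    have h2 := pow_lt h1 hm
    rw [h] at h2
    exact absurd (le_pow hv k) (not_le.mpr h2)
  · by_contra h1
    rw [not_le] at h1
    have h2 := lt_pow h1 hm
    rw [h] at h2
    exact absurd (pow_le hv k) (not_le.mpr h2)

/-- `x * g⁻¹` and `x * g` move every point in the same direction, and fixed points of `x * g` are
fixed points of `x * g⁻¹`. -/
structure Same (x g : Ω ≃o Ω) : Prop where
  comm : Commute x g
  dir : ∀ v, (v ≤ (x * g⁻¹) v ∧ v ≤ (x * g) v) ∨ ((x * g⁻¹) v ≤ v ∧ (x * g) v ≤ v)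
  fix : ∀ v, (x * g) v = v → (x * g⁻¹) v = v

theorem same_solid {x g : Ω ≃o Ω} (hc : Commute x g) {m k : ℤ} (h1 : -m < k) (h2 : k ≤ m)
    (h : g ^ m = x ^ k) : Same x g := by
  have c1 : Commute x g⁻¹ := hc.inv_right
  have e1 : (x * g⁻¹) ^ (m + k) = (x * g) ^ (m - k) := by
    rw [c1.mul_zpow, hc.mul_zpow, zpow_add, zpow_sub, inv_zpow', neg_add, zpow_add, zpow_neg, zpow_neg,
      zpow_sub, h]
    have c2 : Commute (x ^ m) (x ^ k) := (Commute.refl x).zpow_zpow m k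
    rw [mul_assoc, mul_inv_cancel_left, mul_assoc, inv_mul_cancel_left]
  obtain ⟨r, hr⟩ : ∃ r : ℕ, m + k = r := ⟨(m + k).toNat, by omega⟩
  obtain ⟨p, hp⟩ : ∃ p : ℕ, m - k = p := ⟨(m - k).toNat, by omega⟩
  have hr1 : 1 ≤ r := by omega
  rw [hr, hp, zpow_natCast, zpow_natCast] at e1
  refine ⟨hc, fun v => ?_, fun v hv => ?_⟩
  · rcases lt_trichotomy ((x * g⁻¹) v) v with h3 | h3 | h3
    · refine Or.inr ⟨h3.le, ?_⟩
      by_contra h4
      rw [not_le] at h4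
      have h5 := pow_lt h3 hr1
      rw [e1] at h5
      exact absurd (le_pow h4.le p) (not_le.mpr h5)
    · rcases le_total v ((x * g) v) with h4 | h4
      · exact Or.inl ⟨h3.ge, h4⟩
      · exact Or.inr ⟨h3.le, h4⟩
    · refine Or.inl ⟨h3.le, ?_⟩
      by_contra h4
      rw [not_le] at h4
      have h5 := lt_pow h3 hr1
      rw [e1] at h5
      exact absurd (pow_le h4.le p) (not_le.mpr h5)
  · rcases lt_trichotomy ((x * g⁻¹) v) v with h3 | h3 | h3
    · have h5 := pow_lt h3 hr1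
      rw [e1] at h5
      exact absurd (le_pow hv.ge p) (not_le.mpr h5)
    · exact h3
    · have h5 := lt_pow h3 hr1
      rw [e1] at h5
      exact absurd (pow_le hv.le p) (not_le.mpr h5)

variable {x g : Ω ≃o Ω}

theorem Same.sq (h : Same x g) (v : Ω) : x (x v) = (x * g⁻¹) ((x * g) v) := by
  rw [← RelIso.mul_apply, ← RelIso.mul_apply]
  congr 1
  have c1 := h.comm.inv_right
  calc x * x = x * (x * g⁻¹ * g) := by rw [inv_mul_cancel_right]
    _ = x * (g⁻¹ * x * g) := by rw [c1.eq]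
    _ = _ := by group

theorem Same.comm' (h : Same x g) (v : Ω) : x (g v) = g (x v) := by
  rw [← RelIso.mul_apply, h.comm.eq, RelIso.mul_apply]

theorem Same.up (h : Same x g) {v : Ω} (hv : v ≤ x v) : v ≤ x (g v) ∧ g v ≤ x v := by
  rcases h.dir v with ⟨h1, h2⟩ | ⟨h1, h2⟩
  · refine ⟨h2, ?_⟩
    have h3 := g.le_iff_le.mpr h1
    have e : g ((x * g⁻¹) v) = x v := by
      rw [RelIso.mul_apply, ← h.comm']; exact congrArg x (g.apply_symm_apply v)
    rwa [e] at h3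
  · have h3 : x (x v) ≤ v := by
      rw [h.sq]
      exact ((x * g⁻¹).le_iff_le.mpr h2).trans h1
    have h4 : x v = v := le_antisymm ((x.le_iff_le.mpr hv).trans h3) hv
    have h5 : v ≤ (x * g) v := by
      rw [← (x * g⁻¹).le_iff_le, ← h.sq, h4, h4]; exact h1
    have h6 : x (g v) = v := le_antisymm h2 h5
    have h7 : g v = v := x.injective (h6.trans h4.symm)
    exact ⟨h5, by rw [h7, h4]⟩

theorem Same.dn (h : Same x g) {v : Ω} (hv : x v ≤ v) : x v ≤ g v ∧ x (g v) ≤ v := by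
  rcases h.dir v with ⟨h1, h2⟩ | ⟨h1, h2⟩
  · have h3 : v ≤ x (x v) := by
      rw [h.sq]
      exact h1.trans ((x * g⁻¹).le_iff_le.mpr h2)
    have h4 : x v = v := le_antisymm hv (h3.trans (x.le_iff_le.mpr hv))
    have h5 : (x * g) v ≤ v := by
      rw [← (x * g⁻¹).le_iff_le, ← h.sq, h4, h4]; exact h1
    have h6 : x (g v) = v := le_antisymm h5 h2
    have h7 : g v = v := x.injective (h6.trans h4.symm)
    exact ⟨by rw [h7, h4], h5⟩
  · refine ⟨?_, h2⟩
    have h3 := g.le_iff_le.mpr h1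
    have e : g ((x * g⁻¹) v) = x v := by
      rw [RelIso.mul_apply, ← h.comm']; exact congrArg x (g.apply_symm_apply v)
    rwa [e] at h3

theorem fix_of_sq {v : Ω} (h : x (x v) = v) : x v = v := by
  rcases lt_trichotomy (x v) v with h1 | h1 | h1
  · exact absurd h ((x.lt_iff_lt.mpr h1).trans h1).ne
  · exact h1
  · exact absurd h (h1.trans (x.lt_iff_lt.mpr h1)).ne'

theorem Same.strict (h : Same x g) {v : Ω} (hv : x (g v) = v) : x v = v := by
  have h1 : (x * g) v = v := hv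
  apply fix_of_sq
  rw [h.sq, h1]
  exact h.fix v h1

end caps

section chain
variable {Ω : Type*} [CompleteLinearOrder Ω] {H : Type*} [Group H] {n : ℕ}
  {x v w g q f : ZMod n → H}

/-- The relations. -/
structure CRel (x v w g q f : ZMod n → H) : Prop where
  prod : ∀ i, x i * v i * w i = 1
  gx : ∀ i, Commute (x i) (g i)
  qv : ∀ i, Commute (v i) (q i)
  fw : ∀ i, Commute (w i) (f i)
  relA : ∀ i, x (i + 1) * g (i + 1) * v (i + 1) * q (i + 1) = x i * g i * v i * q i * w i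
  relB : ∀ i, (q (i + 1))⁻¹ * (f (i + 1))⁻¹ = x i * (q i)⁻¹ * (f i)⁻¹

theorem CRel.vw (R : CRel x v w g q f) (i : ZMod n) : v i * w i = (x i)⁻¹ := by
  have := R.prod i
  rw [eq_inv_iff_mul_eq_one]
  calc v i * w i * x i = (x i)⁻¹ * (x i * v i * w i) * x i := by group
    _ = 1 := by rw [this]; group

theorem CRel.A' (R : CRel x v w g q f) (i : ZMod n) :
    x (i + 1) * (g (i + 1) * (v (i + 1) * q (i + 1))) = x i * (g i * (q i * (x i)⁻¹)) := by
  have h := R.relA i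
  rw [← R.vw]
  calc x (i + 1) * (g (i + 1) * (v (i + 1) * q (i + 1)))
      = x (i + 1) * g (i + 1) * v (i + 1) * q (i + 1) := by group
    _ = x i * g i * (v i * q i) * w i := by rw [h]; group
    _ = _ := by rw [(R.qv i).eq]; group

theorem CRel.C' (R : CRel x v w g q f) (i : ZMod n) :
    w (i + 1) * (f (i + 1) * (g (i + 1))⁻¹) = f i * ((g i)⁻¹ * (x i)⁻¹) := by
  have h1 : ∀ j, w j * (f j * (g j)⁻¹) =
      ((x j * (g j * (v j * q j))) * ((q j)⁻¹ * (f j)⁻¹))⁻¹ := by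
    intro j
    have h2 : x j * v j = (w j)⁻¹ := by
      rw [eq_inv_iff_mul_eq_one]; exact R.prod j
    have h3 : x j * (g j * (v j * q j)) * ((q j)⁻¹ * (f j)⁻¹) = g j * (x j * v j) * (f j)⁻¹ := by
      calc _ = (x j * g j) * v j * (f j)⁻¹ := by group
        _ = _ := by rw [(R.gx j).eq]; group
    rw [h3, h2]
    calc w j * (f j * (g j)⁻¹) = w j * f j * (g j)⁻¹ := by group
      _ = _ := by rw [(R.fw j).eq]; group
  rw [h1, R.A', R.relB]
  calc (x i * (g i * (q i * (x i)⁻¹)) * (x i * (q i)⁻¹ * (f i)⁻¹))⁻¹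
      = (x i * g i * (f i)⁻¹)⁻¹ := by group
    _ = f i * ((g i)⁻¹ * (x i)⁻¹) := by group

/-- **All points are fixed.** -/
theorem CRel.fixed (R : CRel x v w g q f) (hn : 0 < n) (ρ : H →* (Ω ≃o Ω))
    (c0 : ∀ i, Same (ρ (x i)) (ρ (g i)))
    (c1 : ∀ i, Follows (ρ (v i)) (ρ ((v i)⁻¹ * q i)))
    (c2 : ∀ i, Follows (ρ (w i)) (ρ (f i))) (i : ZMod n) (p : Ω) :
    ρ (x i) p = p ∧ ρ (v i) p = p ∧ ρ (g i) p = p ∧ ρ (q i) p = p ∧ ρ (f i) p = p := by
  have : NeZero n := ⟨hn.ne'⟩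
  have hN0 : ∀ j : ℕ, ((j + n : ℕ) : ZMod n) = (j : ZMod n) := by
    intro j; push_cast; rw [ZMod.natCast_self, add_zero]
  have app : ∀ (a b : H) (y : Ω), ρ a (ρ b y) = ρ (a * b) y := by
    intro a b y; rw [map_mul]; rfl
  have sym : ∀ (a : H) (y : Ω), (ρ a).symm y = ρ a⁻¹ y := by
    intro a y; rw [map_inv]; rfl
  have eVR : ∀ j, v j * ((v j)⁻¹ * q j) = q j := fun j => mul_inv_cancel_left _ _
  have hst : ∀ j, BStage (ρ (x j)) (ρ (v j)) (ρ (w j)) (ρ (g j)) (ρ (f j))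
      (ρ ((v j)⁻¹ * q j)) := by
    intro j
    refine ⟨fun y => ?_, fun y => (c0 j).comm' y, fun y hy => (c0 j).up hy,
      fun y hy => (c0 j).dn hy, fun y hy => (c0 j).strict hy, c1 j, c2 j⟩
    rw [app, app, R.prod, map_one]; rfl
  have hC : BChain (fun j : ℕ => ρ (x j)) (fun j : ℕ => ρ (v j)) (fun j : ℕ => ρ (w j))
      (fun j : ℕ => ρ (g j)) (fun j : ℕ => ρ (f j)) (fun j : ℕ => ρ ((v j)⁻¹ * q j)) := by
    refine ⟨fun j => hst j, fun j y => ?_, fun j y => ?_⟩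
    · have := R.A' (j : ZMod n)
      simp only [sym, app, mul_assoc, eVR, mul_inv_cancel_left]
      rw [Nat.cast_add, Nat.cast_one, this]
    · have := R.C' (j : ZMod n)
      simp only [sym, app]
      rw [Nat.cast_add, Nat.cast_one, this]
  have hP : BPer n (fun j : ℕ => ρ (x j)) (fun j : ℕ => ρ (v j)) (fun j : ℕ => ρ (w j))
      (fun j : ℕ => ρ (g j)) (fun j : ℕ => ρ (f j)) (fun j : ℕ => ρ ((v j)⁻¹ * q j)) := by
    refine ⟨?_, ?_, ?_, ?_, ?_, ?_⟩ <;> intro j <;> simp only [hN0]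
  have hi : ((i.val : ℕ) : ZMod n) = i := ZMod.natCast_zmod_val i
  have hxv := hC.fixed hP hn i.val p
  simp only [hi] at hxv
  obtain ⟨hx, hv⟩ := hxv
  have hw := (hst i).w_fix hx hv
  have hr := (c1 i).fix hv
  refine ⟨hx, hv, (hst i).g_fix hx, ?_, (c2 i).fix hw⟩
  rw [← eVR i, ← app, hr, hv]

end chain

end Pool.Agent.L7h80.PC
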