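import Mathlib

set_option autoImplicit false

/-!
# The kernel of a homomorphism to `Z/n`

`G` is generated by `s` and the elements `y a`, `s ^ n = 1`, `d s = 1`, `d (y a) = 0`. The kernel of `d`
is generated by the conjugates of the elements `y a` by powers of `s`.
-/

namespace Pool.Agent.L7h80.PC

variable {G : Type*} [Group G] {n : ℕ}

/-- The conjugate of `x` by the `i`-th power of `s`. -/
def cj (s x : G) (i : ZMod n) : G := s ^ i.val * x * (s ^ i.val)⁻¹

theorem cj_succ (hn : 0 < n) {s : G} (hs : s ^ n = 1) (x : G) (i : ZMod n) :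
    cj s x (i + 1) = s * cj s x i * s⁻¹ := by
  have : NeZero n := ⟨hn.ne'⟩
  have h1 : s ^ (i + 1).val = s * s ^ i.val := by
    rw [← pow_succ', ZMod.val_add, ZMod.val_one_eq_one_mod, Nat.add_mod_mod,
      ← pow_eq_pow_mod _ hs]
  unfold cj
  rw [h1]
  group

theorem cj_mul (s x y : G) (i : ZMod n) : cj s (x * y) i = cj s x i * cj s y i := by
  unfold cj; group

theorem cj_inv (s x : G) (i : ZMod n) : cj s x⁻¹ i = (cj s x i)⁻¹ := by
  unfold cj; group

theorem cj_zero (hn : 0 < n) (s x : G) : cj s x (0 : ZMod n) = x := by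
  unfold cj; simp

/-- `s x s⁻¹` is shifted. -/
theorem cj_shift (hn : 0 < n) {s : G} (hs : s ^ n = 1) (x : G) (i : ZMod n) :
    cj s x (i + 1) = cj s (s * x * s⁻¹) i := by
  rw [cj_succ hn hs]
  unfold cj
  have h1 : s * s ^ i.val = s ^ i.val * s := by rw [← pow_succ', ← pow_succ]
  have h2 : (s ^ i.val)⁻¹ * s⁻¹ = s⁻¹ * (s ^ i.val)⁻¹ := by
    rw [← mul_inv_rev, ← mul_inv_rev, h1]
  calc s * (s ^ i.val * x * (s ^ i.val)⁻¹) * s⁻¹
      = (s * s ^ i.val) * x * ((s ^ i.val)⁻¹ * s⁻¹) := by group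
    _ = _ := by rw [h1, h2]; group

variable {ι : Type*} (n)

/-- The subgroup generated by the conjugates. -/
def CN (s : G) (y : ι → G) : Subgroup G :=
  Subgroup.closure (Set.range fun t : ι × ZMod n => cj s (y t.1) t.2)

variable {n} {s : G} {y : ι → G}

theorem conj_mem (hn : 0 < n) (hs : s ^ n = 1) {x : G} (hx : x ∈ CN n s y) :
    s * x * s⁻¹ ∈ CN n s y := by
  induction hx using Subgroup.closure_induction with
  | mem x hx =>
    obtain ⟨⟨a, i⟩, rfl⟩ := hx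
    show s * cj s (y a) i * s⁻¹ ∈ _
    rw [← cj_succ hn hs]
    exact Subgroup.subset_closure ⟨(a, i + 1), rfl⟩
  | one => simpa using Subgroup.one_mem _
  | mul x y _ _ hx hy =>
    have : s * (x * y) * s⁻¹ = (s * x * s⁻¹) * (s * y * s⁻¹) := by group
    rw [this]; exact mul_mem hx hy
  | inv x _ hx =>
    have : s * x⁻¹ * s⁻¹ = (s * x * s⁻¹)⁻¹ := by group
    rw [this]; exact inv_mem hx

theorem conj_pow_mem (hn : 0 < n) (hs : s ^ n = 1) {x : G} (hx : x ∈ CN n s y) (m : ℕ) :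
    s ^ m * x * (s ^ m)⁻¹ ∈ CN n s y := by
  induction m with
  | zero => simpa using hx
  | succ m ih =>
    have : s ^ (m + 1) * x * (s ^ (m + 1))⁻¹ = s * (s ^ m * x * (s ^ m)⁻¹) * s⁻¹ := by
      rw [pow_succ']; group
    rw [this]; exact conj_mem hn hs ih

/-- Every power of `s` is a natural power. -/
theorem inv_eq_pow (hn : 0 < n) {s : G} (hs : s ^ n = 1) (m : ℕ) :
    (s ^ m)⁻¹ = s ^ (m * (n - 1)) := by
  have h1 : s ^ m * s ^ (m * (n - 1)) = 1 := by
    rw [← pow_add]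
    have : m + m * (n - 1) = n * m := by
      obtain ⟨n, rfl⟩ := Nat.exists_eq_add_of_le' hn
      simp; ring
    rw [this, pow_mul, hs, one_pow]
  exact inv_eq_of_mul_eq_one_right h1

/-- The subgroup `N ⟨s⟩`. -/
def CNS (hn : 0 < n) (hs : s ^ n = 1) (y : ι → G) : Subgroup G where
  carrier := {g | ∃ x ∈ CN n s y, ∃ m : ℕ, g = x * s ^ m}
  mul_mem' := by
    rintro _ _ ⟨x, hx, m, rfl⟩ ⟨y, hy, l, rfl⟩
    refine ⟨x * (s ^ m * y * (s ^ m)⁻¹), mul_mem hx (conj_pow_mem hn hs hy m), m + l, ?_⟩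
    rw [pow_add]; group
  one_mem' := ⟨1, one_mem _, 0, by simp⟩
  inv_mem' := by
    rintro _ ⟨x, hx, m, rfl⟩
    refine ⟨s ^ (m * (n - 1)) * x⁻¹ * (s ^ (m * (n - 1)))⁻¹,
      conj_pow_mem hn hs (inv_mem hx) _, m * (n - 1), ?_⟩
    rw [mul_inv_rev, inv_eq_pow hn hs m]; group

theorem ker_le (hn : 0 < n) (hs : s ^ n = 1)
    (hgen : ∀ K : Subgroup G, s ∈ K → (∀ a, y a ∈ K) → K = ⊤)
    (d : G →* Multiplicative (ZMod n)) (ds : d s = Multiplicative.ofAdd 1)
    (dy : ∀ a, d (y a) = 1) {g : G} (hg : d g = 1) : g ∈ CN n s y := by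
  have h1 : CNS hn hs y = ⊤ := by
    apply hgen
    · exact ⟨1, one_mem _, 1, by simp⟩
    · intro a
      exact ⟨y a, Subgroup.subset_closure ⟨(a, 0), cj_zero hn s (y a)⟩, 0, by simp⟩
  have h2 : CN n s y ≤ d.ker := by
    unfold CN
    rw [Subgroup.closure_le]
    rintro _ ⟨⟨a, i⟩, rfl⟩
    show d _ = 1
    unfold cj; rw [map_mul, map_mul, dy, map_inv]; simp
  have h3 : g ∈ CNS hn hs y := by rw [h1]; trivial
  obtain ⟨x, hx, m, rfl⟩ := h3
  have h4 : d x = 1 := h2 hx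
  rw [map_mul, h4, one_mul, map_pow, ds, ← ofAdd_nsmul] at hg
  have h5 : (m : ZMod n) = 0 := by
    have := Multiplicative.ofAdd.injective (hg.trans ofAdd_zero.symm)
    simpa using this
  rw [ZMod.natCast_eq_zero_iff] at h5
  obtain ⟨l, rfl⟩ := h5
  rw [pow_mul, hs, one_pow, mul_one]
  exact hx

end Pool.Agent.L7h80.PC
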