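import Pool.Agent.TH821.HexStage

set_option autoImplicit false

/-!
# One stage and the periodic chain of pretzel stages with general caps

`X, V, W` are order automorphisms of a complete linear order with `X V W = 1`; `G` commutes with `X` and
moves every point at most as far as `X` or `X⁻¹`, and `X G` fixes only the fixed points of `X`; `R`
follows `V` and `F` follows `W`.
(`G = X ^ a`, `V R = V ^ q`, `F = W ^ b` with `-1 < a ≤ 1 ≤ q`, `b ≥ 0` for a pretzel surface.)

Before the stage `A = X G V V R`, `C = W F G⁻¹`; after the stage `A' = A W = X G V R X⁻¹`,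
`C' = F G⁻¹ X⁻¹`.
-/

namespace Pool.Agent.L7h80.PC

open Pool.Agent.TH821.Hex

variable {Ω : Type*} [CompleteLinearOrder Ω]

/-- One stage. -/
structure BStage (X V W G F R : Ω ≃o Ω) : Prop where
  prod : ∀ v, X (V (W v)) = v
  comm : ∀ v, X (G v) = G (X v)
  gup : ∀ v, v ≤ X v → v ≤ X (G v) ∧ G v ≤ X v
  gdn : ∀ v, X v ≤ v → X v ≤ G v ∧ X (G v) ≤ v
  strict : ∀ v, X (G v) = v → X v = v
  vR : Follows V R
  wF : Follows W F

theorem BStage.dual {X V W G F R : Ω ≃o Ω} (h : BStage X V W G F R) :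
    BStage (Ω := Ωᵒᵈ) X.dual V.dual W.dual G.dual F.dual R.dual :=
  ⟨fun v => h.prod v, fun v => h.comm v, fun v hv => ⟨(h.gdn v hv).2, (h.gdn v hv).1⟩,
    fun v hv => ⟨(h.gup v hv).2, (h.gup v hv).1⟩, fun v hv => h.strict v hv, h.vR.dual, h.wF.dual⟩

section stage
variable {X V W G F R : Ω ≃o Ω}

theorem BStage.vwx (h : BStage X V W G F R) (v : Ω) : V (W (X v)) = v :=
  X.injective (h.prod (X v))

theorem BStage.vw (h : BStage X V W G F R) (y : Ω) : V (W y) = X.symm y := by
  rw [← X.injective.eq_iff, h.prod, X.apply_symm_apply]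

theorem BStage.symm_comm (h : BStage X V W G F R) (y : Ω) :
    G.symm (X.symm y) = X.symm (G.symm y) := by
  apply G.injective
  apply X.injective
  rw [G.apply_symm_apply, X.apply_symm_apply, h.comm, X.apply_symm_apply, G.apply_symm_apply]

/-- `X y ≤ G⁻¹ y ≤ X⁻¹ y` if `X y ≤ y`. -/
theorem BStage.g_le (h : BStage X V W G F R) {y : Ω} (hx : X y ≤ y) :
    X y ≤ G.symm y ∧ G.symm y ≤ X.symm y := by
  have h0 : X (G.symm y) ≤ G.symm y := by
    rw [le_symm_iff, ← h.comm, G.apply_symm_apply]; exact hx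
  obtain ⟨h1, h2⟩ := h.gdn _ h0
  rw [G.apply_symm_apply] at h1 h2
  exact ⟨h2, by rw [le_symm_iff]; exact h1⟩

/-- `X⁻¹ y ≤ G⁻¹ y ≤ X y` if `y ≤ X y`. -/
theorem BStage.le_g (h : BStage X V W G F R) {y : Ω} (hx : y ≤ X y) :
    X.symm y ≤ G.symm y ∧ G.symm y ≤ X y :=
  ⟨(BStage.g_le (Ω := Ωᵒᵈ) h.dual (y := y) hx).2, (BStage.g_le (Ω := Ωᵒᵈ) h.dual (y := y) hx).1⟩

/-- `y ≤ A y` means `W G⁻¹ y ≤ V R y`. -/
theorem BStage.A_iff (h : BStage X V W G F R) {y : Ω} :
    y ≤ X (G (V (V (R y)))) ↔ W (G.symm y) ≤ V (R y) := by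
  rw [← V.le_iff_le (x := W (G.symm y)), h.vw, ← h.symm_comm, G.symm_apply_le, X.symm_apply_le]

theorem BStage.A_iff' (h : BStage X V W G F R) {y : Ω} :
    X (G (V (V (R y)))) < y ↔ V (R y) < W (G.symm y) := by
  rw [← not_le, h.A_iff, not_le]

/-- `y ≤ A y`, `y ≤ C y` and `y ≤ X y` only if everything is fixed. -/
theorem BStage.xdown (h : BStage X V W G F R) {y : Ω} (hA : y ≤ X (G (V (V (R y)))))
    (hC : y ≤ W (F (G.symm y))) (hx : y ≤ X y) : X y = y ∧ V y = y ∧ W y = y := by
  have h2 := h.A_iff.mp hA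
  obtain ⟨hug, hgx⟩ := h.le_g hx
  have hXG : X (G.symm y) = G.symm (X y) := by
    apply G.injective
    rw [← h.comm, G.apply_symm_apply, G.apply_symm_apply]
  set g := G.symm y with hg
  have hGg : G g = y := G.apply_symm_apply y
  have hXg : g ≤ X g := by
    rw [hXG, hg]; exact G.symm.le_iff_le.mpr hx
  rcases lt_or_ge y (V y) with hv | hv
  · exfalso
    have h3 : W y < y := by
      rw [← V.lt_iff_lt, h.vw]
      refine lt_of_le_of_lt ?_ hv
      rw [X.symm_apply_le]; exact hx
    have h4 : W g < y := by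
      have e1 : W g ≤ W (X y) := W.le_iff_le.mpr hgx
      refine e1.trans_lt ?_
      rw [← V.lt_iff_lt, h.vwx]; exact hv
    rcases le_total y g with h5 | h5
    · have h6 : F g ≤ g := h.wF.down g (h4.le.trans h5)
      exact absurd (hC.trans (W.le_iff_le.mpr h6)) (not_le.mpr h4)
    · have h6 : W (F g) ≤ W (F y) := W.le_iff_le.mpr (F.le_iff_le.mpr h5)
      have h7 : W (F y) ≤ W y := W.le_iff_le.mpr (h.wF.down y h3.le)
      exact absurd (hC.trans (h6.trans h7)) (not_le.mpr h3)
  · have h8 : R y ≤ y := h.vR.down y hv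
    have h3 : V (R y) ≤ V y := V.le_iff_le.mpr h8
    rcases le_or_gt y g with h5 | h5
    · have h6 : W g ≤ g := (h2.trans (h3.trans hv)).trans h5
      have h7 : W (F g) ≤ W g := W.le_iff_le.mpr (h.wF.down g h6)
      have e1 : V y = y := le_antisymm hv (hC.trans (h7.trans (h2.trans h3)))
      have e2 : W g = y := le_antisymm (h2.trans (h3.trans hv)) (hC.trans h7)
      have e3 : X.symm g = y := by
        have := h.vw g
        rw [e2, e1] at this
        exact this.symm
      have e4 : X y = y := by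
        apply h.strict
        rw [h.comm]
        rw [OrderIso.symm_apply_eq] at e3
        rw [← e3, hGg]
      rw [e4] at hgx
      have e5 : g = y := le_antisymm hgx h5
      rw [e5] at e2
      exact ⟨e4, e1, e2⟩
    · exfalso
      have hWy : y < W y := by
        by_contra h6
        rw [not_lt] at h6
        have h7 : W (F g) < W (F y) := W.lt_iff_lt.mpr (F.lt_iff_lt.mpr h5)
        have h9 : W (F y) ≤ W y := W.le_iff_le.mpr (h.wF.down y h6)
        exact absurd (hC.trans_lt h7) (not_lt.mpr (h9.trans h6))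
      have h4 : g ≤ W g := by
        by_contra h6
        rw [not_le] at h6
        have h7 : W (F g) ≤ W g := W.le_iff_le.mpr (h.wF.down g h6.le)
        exact absurd (hC.trans h7) (not_le.mpr (h6.trans h5))
      have h6 : y ≤ X g := by
        have := (h.gup g hXg).2
        rwa [hGg] at this
      have h7 : W (X (W g)) ≤ R y := by
        rw [← V.le_iff_le, h.vwx]; exact h2
      have h9 : W y ≤ R y :=
        (W.le_iff_le.mpr (h6.trans (X.le_iff_le.mpr h4))).trans h7
      exact absurd (hWy.trans_le (h9.trans h8)) (lt_irrefl _)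

theorem BStage.g_fix (h : BStage X V W G F R) {y : Ω} (hx : X y = y) : G y = y := by
  have h1 := (h.gup y hx.ge).2
  have h2 := (h.gdn y hx.le).1
  rw [hx] at h1 h2
  exact le_antisymm h1 h2

/-- If everything is fixed, `A y = y`. -/
theorem BStage.A_fix (h : BStage X V W G F R) {y : Ω} (hx : X y = y) (hv : V y = y) :
    X (G (V (V (R y)))) = y := by
  rw [h.vR.fix hv, hv, hv, h.g_fix hx, hx]

theorem BStage.w_fix (h : BStage X V W G F R) {y : Ω} (hx : X y = y) (hv : V y = y) :
    W y = y := by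
  have h1 : V (W y) = y := by
    rw [h.vw, OrderIso.symm_apply_eq]; exact hx.symm
  exact V.injective (h1.trans hv.symm)

theorem BStage.C_fix (h : BStage X V W G F R) {y : Ω} (hx : X y = y) (hv : V y = y) :
    W (F (G.symm y)) = y := by
  have hw := h.w_fix hx hv
  have hs : G.symm y = y := by rw [OrderIso.symm_apply_eq]; exact (h.g_fix hx).symm
  rw [hs, h.wF.fix hw, hw]

/-- `A' = A W`. -/
theorem BStage.A'_eq (h : BStage X V W G F R) (y : Ω) :
    X (G (V (R (X.symm y)))) = X (G (V (V (R (W y))))) := by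
  congr 2
  rw [h.vR.comm, ← h.vR.comm, ← h.vw, ← h.vR.comm]

/-- **Propagation.** -/
theorem BStage.prop (h : BStage X V W G F R) {y : Ω} (hA : y ≤ X (G (V (V (R y)))))
    (hC : y ≤ W (F (G.symm y)))
    (hne : ¬ (X (G (V (V (R y)))) = y ∧ W (F (G.symm y)) = y)) :
    ∃ p, p ≤ y ∧ p ≤ X (G (V (R (X.symm p)))) ∧ W (F (G.symm y)) < F (G.symm (X.symm p)) := by
  have hx : X y < y := by
    by_contra h1
    rw [not_lt] at h1
    obtain ⟨h2, h3, _⟩ := h.xdown hA hC h1
    exact hne ⟨h.A_fix h2 h3, h.C_fix h2 h3⟩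
  have hWQ := h.A_iff.mp hA
  have hsc := h.symm_comm y
  obtain ⟨-, hgu⟩ := h.g_le hx.le
  set u := X.symm y with hu
  have hXu : X u = y := X.apply_symm_apply y
  have hyu : y < u := by
    rw [← X.lt_iff_lt, hXu]; exact hx
  set g := G.symm y with hg
  have hGg : G g = y := G.apply_symm_apply y
  set ζ := X.symm g with hζ
  have hyζ : y < ζ := by
    have h1 : X (G y) ≤ y := (h.gdn y hx.le).2
    have h2 : X (G y) < y := lt_of_le_of_ne h1 (fun e => hx.ne (h.strict y e))
    rw [← hsc, lt_symm_iff, hu, lt_symm_iff]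
    exact h2
  have hVWg : V (W g) = ζ := h.vw g
  have h1 : ζ ≤ V (V (R y)) := by
    rw [← hVWg]; exact V.le_iff_le.mpr hWQ
  have hv : y < V y := by
    by_contra h2
    rw [not_lt] at h2
    have h3 : V (V (R y)) ≤ y :=
      (V.le_iff_le.mpr ((V.le_iff_le.mpr (h.vR.down y h2)).trans h2)).trans h2
    exact absurd hyζ (not_lt.mpr (h1.trans h3))
  have hWgζ : W g < ζ := by
    by_contra h2
    rw [not_lt, ← hVWg] at h2
    rw [← hVWg] at hyζ
    obtain ⟨n, n1, n2, n3⟩ := fixUD V (hyζ.le.trans h2) hv h2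
    have h3 : V (R y) < V (R n) := V.lt_iff_lt.mpr (R.lt_iff_lt.mpr n1)
    rw [h.vR.fix n3, n3] at h3
    exact absurd (h3.trans_le (n2.trans hWQ)) (lt_irrefl _)
  have hcomm : W (F g) = F (W g) := h.wF.comm g
  rcases le_or_gt y (X (G (V (R u)))) with h2 | h2
  · exact ⟨y, le_rfl, h2, by rw [hcomm, ← hu, hsc]; exact F.lt_iff_lt.mpr hWgζ⟩
  · have h3 : G (V (R u)) < u := by
      rw [← X.lt_iff_lt, hXu]
      exact h2
    have hw : W y < y := by
      by_contra h4
      rw [not_lt] at h4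
      have h5 : X (G (V (V (R y)))) ≤ X (G (V (V (R (W y))))) :=
        X.le_iff_le.mpr (G.le_iff_le.mpr (V.le_iff_le.mpr (V.le_iff_le.mpr
          (R.le_iff_le.mpr h4))))
      rw [← h.A'_eq] at h5
      exact absurd (hA.trans h5) (not_le.mpr h2)
    have h4 : y < G (V (R y)) := by
      have e1 : u < V (R y) := by
        have e2 := V.lt_iff_lt.mpr hw
        rw [h.vw] at e2
        exact e2.trans_le (V.le_iff_le.mpr (h.vR.up y hv.le))
      have e3 := G.lt_iff_lt.mpr (hgu.trans_lt e1)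
      rwa [hGg] at e3
    obtain ⟨ρ, r1, r2, r3⟩ := fixUD (R.trans (V.trans G)) hyu.le h4 h3.le
    have r4 : G (V (R ρ)) = ρ := r3
    have r5 : G.symm ρ = V (R ρ) := by rw [OrderIso.symm_apply_eq]; exact r4.symm
    refine ⟨X ρ, ?_, ?_, ?_⟩
    · rw [← hXu]; exact X.le_iff_le.mpr r2
    · rw [X.symm_apply_apply, r4]
    · rw [X.symm_apply_apply, hcomm, r5]
      apply F.lt_iff_lt.mpr
      exact lt_of_le_of_lt hWQ (V.lt_iff_lt.mpr (R.lt_iff_lt.mpr r1))

/-- If `y < C y`, `A y < y` and `W y ≤ y` then there is `p` with `p ≤ A' p` and `p < C' p`, or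
`A' y < y` and `C' y ≤ y`. -/
theorem BStage.wup (h : BStage X V W G F R) {y : Ω} (hC : y < W (F (G.symm y)))
    (hA : X (G (V (V (R y)))) < y) (hw : W y ≤ y) :
    (∃ p, p ≤ X (G (V (R (X.symm p)))) ∧ p < F (G.symm (X.symm p))) ∨
      (X (G (V (R (X.symm y)))) < y ∧ F (G.symm (X.symm y)) ≤ y) := by
  have hyg : y < G.symm y := by
    by_contra h1
    rw [not_lt] at h1
    have h2 : W (F (G.symm y)) ≤ W (F y) := W.le_iff_le.mpr (F.le_iff_le.mpr h1)
    have h3 : W (F y) ≤ y := (W.le_iff_le.mpr (h.wF.down y hw)).trans hw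
    exact absurd hC (not_lt.mpr (h2.trans h3))
  rcases le_or_gt y (X y) with hx | hx
  · right
    constructor
    · rw [h.A'_eq]
      exact lt_of_le_of_lt (X.le_iff_le.mpr (G.le_iff_le.mpr (V.le_iff_le.mpr
        (V.le_iff_le.mpr (R.le_iff_le.mpr hw))))) hA
    · have h1 : G.symm (X.symm y) ≤ y := by
        rw [G.symm_apply_le, X.symm_apply_le]
        exact (h.gup y hx).1
      exact (F.le_iff_le.mpr h1).trans (h.wF.down y hw)
  · left
    obtain ⟨-, hgu⟩ := h.g_le hx.le
    have h1 := h.A_iff'.mp hA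
    set u := X.symm y with hu
    have hXu : X u = y := X.apply_symm_apply y
    set g := G.symm y with hg
    have hvy : u ≤ V y := by
      have := V.le_iff_le.mpr hw
      rwa [h.vw] at this
    have h2 : g < W g := by
      have h3 : V y ≤ V (R y) :=
        V.le_iff_le.mpr (h.vR.up y ((hyg.le.trans hgu).trans hvy))
      exact lt_of_le_of_lt ((hgu.trans hvy).trans h3) h1
    obtain ⟨r, r1, r2, r3⟩ := fixNU W hyg.le hw h2
    have hXr : X r < r := by
      have := X.lt_iff_lt.mpr (r2.trans_le hgu)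
      rw [hXu] at this
      exact this.trans_le r1
    have hVr : V r = X.symm r := by
      have := h.vw r
      rwa [r3] at this
    have hVr' : r < V r := by
      rw [hVr, ← X.lt_iff_lt, X.apply_symm_apply]; exact hXr
    obtain ⟨-, g2⟩ := h.g_le hXr.le
    refine ⟨X r, ?_, ?_⟩
    · rw [X.symm_apply_apply]
      apply X.le_iff_le.mpr
      have h3 : V r ≤ V (R r) := V.le_iff_le.mpr (h.vR.up r hVr'.le)
      rw [hVr] at h3
      have h4 := G.le_iff_le.mpr (g2.trans h3)
      rwa [G.apply_symm_apply] at h4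
    · rw [X.symm_apply_apply]
      have g1 : r ≤ G.symm r := r2.le.trans (G.symm.le_iff_le.mpr r1)
      have h3 := F.le_iff_le.mpr g1
      rw [h.wF.fix r3] at h3
      exact hXr.trans_le h3

/-- `C` does not leave the upper side. -/
theorem BStage.stay (h : BStage X V W G F R) {y : Ω} (hC : y < W (F (G.symm y)))
    (hw : y < W y) (hC' : F (G.symm (X.symm y)) ≤ y) : X (G (V (R (X.symm y)))) < y := by
  have hsc := h.symm_comm y
  have hyX : y ≤ X y := by
    by_contra h1
    rw [not_le] at h1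
    have h2 : X (G y) ≤ y := (h.gdn y h1.le).2
    have h3 : X (G y) < y := lt_of_le_of_ne h2 (fun e => h1.ne (h.strict y e))
    have h4 : y < G.symm (X.symm y) := by
      rw [lt_symm_iff, lt_symm_iff]; exact h3
    exact absurd ((h.wF.up y hw.le).trans_lt (F.lt_iff_lt.mpr h4)) (not_lt.mpr hC')
  obtain ⟨hug, -⟩ := h.le_g hyX
  set u := X.symm y with hu
  have hXu : X u = y := X.apply_symm_apply y
  have hx : u ≤ y := by rw [hu, X.symm_apply_le]; exact hyX
  set ζ := G.symm u with hζ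
  have hVy : V y < u := by
    have := V.lt_iff_lt.mpr hw
    rwa [h.vw] at this
  have hVu : V u < u := lt_of_le_of_lt (V.le_iff_le.mpr hx) hVy
  have key : V u < ζ := by
    rcases le_or_gt y (G.symm y) with h5 | h5
    · have h6 : u ≤ ζ := by rw [hsc, hu]; exact X.symm.le_iff_le.mpr h5
      exact hVu.trans_le h6
    · rcases lt_or_ge u (W u) with h1 | h1
      · have h2 := V.lt_iff_lt.mpr h1
        rw [h.vw] at h2
        rw [hsc]
        exact h2.trans_le (X.symm.le_iff_le.mpr hug)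
      · have hWg : G.symm y < W (G.symm y) := by
          by_contra h2
          rw [not_lt] at h2
          have h3 : W (F (G.symm y)) ≤ G.symm y :=
            (W.le_iff_le.mpr (h.wF.down _ h2)).trans h2
          exact absurd hC (not_lt.mpr (h3.trans h5.le))
        obtain ⟨n, n1, n2, n3⟩ := fixNU W hug h1 hWg
        have hVn : V n = X.symm n := by
          have := h.vw n
          rwa [n3] at this
        have h4 : V n < ζ := by
          rw [hVn, hsc]; exact X.symm.lt_iff_lt.mpr n2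
        exact lt_of_le_of_lt (V.le_iff_le.mpr n1) h4
  have h3 : V (R u) < ζ := lt_of_le_of_lt (V.le_iff_le.mpr (h.vR.down u hVu.le)) key
  have h4 := X.lt_iff_lt.mpr (G.lt_iff_lt.mpr h3)
  rwa [hζ, G.apply_symm_apply, hXu] at h4

end stage

/-- The chain: `linkA` and `linkC` say what `A` and `C` become. -/
structure BChain (X V W G F R : ℕ → Ω ≃o Ω) : Prop where
  st : ∀ j, BStage (X j) (V j) (W j) (G j) (F j) (R j)
  linkA : ∀ j y, X (j + 1) (G (j + 1) (V (j + 1) (V (j + 1) (R (j + 1) y))))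
    = X j (G j (V j (R j ((X j).symm y))))
  linkC : ∀ j y, W (j + 1) (F (j + 1) ((G (j + 1)).symm y))
    = F j ((G j).symm ((X j).symm y))

theorem BChain.dual {X V W G F R : ℕ → Ω ≃o Ω} (h : BChain X V W G F R) :
    BChain (Ω := Ωᵒᵈ) (fun j => (X j).dual) (fun j => (V j).dual) (fun j => (W j).dual)
      (fun j => (G j).dual) (fun j => (F j).dual) (fun j => (R j).dual) :=
  ⟨fun j => (h.st j).dual, fun j y => h.linkA j y, fun j y => h.linkC j y⟩

/-- Period `N`. -/
structure BPer (N : ℕ) (X V W G F R : ℕ → Ω ≃o Ω) : Prop where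
  X : ∀ j, X (j + N) = X j
  V : ∀ j, V (j + N) = V j
  W : ∀ j, W (j + N) = W j
  G : ∀ j, G (j + N) = G j
  F : ∀ j, F (j + N) = F j
  R : ∀ j, R (j + N) = R j

theorem BPer.dual {N : ℕ} {X V W G F R : ℕ → Ω ≃o Ω} (h : BPer N X V W G F R) :
    BPer (Ω := Ωᵒᵈ) N (fun j => (X j).dual) (fun j => (V j).dual) (fun j => (W j).dual)
      (fun j => (G j).dual) (fun j => (F j).dual) (fun j => (R j).dual) :=
  ⟨fun j => congrArg OrderIso.dual (h.X j), fun j => congrArg OrderIso.dual (h.V j),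
    fun j => congrArg OrderIso.dual (h.W j), fun j => congrArg OrderIso.dual (h.G j),
    fun j => congrArg OrderIso.dual (h.F j), fun j => congrArg OrderIso.dual (h.R j)⟩

section chain
variable {X V W G F R : ℕ → Ω ≃o Ω} {N : ℕ}

/-- an increasing sequence is not periodic. -/
theorem no_incr {u : ℕ → Ω} (hN : 0 < N) {i : ℕ} (hp : u (i + N) = u i)
    (h : ∀ j, i ≤ j → u j < u (j + 1)) : False := by
  have key : ∀ k, 0 < k → u i < u (i + k) := by
    intro k hk
    induction k with
    | zero => exact absurd hk (lt_irrefl _)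
    | succ k ih =>
      rcases Nat.eq_zero_or_pos k with rfl | hk'
      · exact h i le_rfl
      · exact (ih hk').trans (h (i + k) (Nat.le_add_right _ _))
  have := key N hN
  rw [hp] at this
  exact lt_irrefl _ this

/-- `y ≤ A y` and `y ≤ C y` only if both are equalities. -/
theorem BChain.noboth (h : BChain X V W G F R) (hP : BPer N X V W G F R) (hN : 0 < N) (i : ℕ)
    (y : Ω) (hA : y ≤ X i (G i (V i (V i (R i y))))) (hC : y ≤ W i (F i ((G i).symm y))) :
    X i (G i (V i (V i (R i y)))) = y ∧ W i (F i ((G i).symm y)) = y := by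
  by_contra hne
  have key : ∀ k, ∃ p, p ≤ y ∧ p ≤ X (i + k) (G (i + k) (V (i + k) (V (i + k) (R (i + k) p)))) ∧
      p ≤ W (i + k) (F (i + k) ((G (i + k)).symm p)) ∧
      ¬ (X (i + k) (G (i + k) (V (i + k) (V (i + k) (R (i + k) p)))) = p ∧
        W (i + k) (F (i + k) ((G (i + k)).symm p)) = p) ∧
      W i (F i ((G i).symm y)) ≤ W (i + k) (F (i + k) ((G (i + k)).symm p)) ∧
      (0 < k → W i (F i ((G i).symm y)) < W (i + k) (F (i + k) ((G (i + k)).symm p))) := by
    intro k
    induction k with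
    | zero => exact ⟨y, le_rfl, hA, hC, hne, le_rfl, fun h0 => absurd h0 (lt_irrefl _)⟩
    | succ k ih =>
      obtain ⟨p, p1, p2, p3, p4, p5, -⟩ := ih
      obtain ⟨p', q1, q2, q3⟩ := (h.st (i + k)).prop p2 p3 p4
      rw [← h.linkA] at q2
      rw [← h.linkC] at q3
      have q4 : p' < W (i + k + 1) (F (i + k + 1) ((G (i + k + 1)).symm p')) :=
        lt_of_le_of_lt (q1.trans p3) q3
      exact ⟨p', q1.trans p1, q2, q4.le, fun hh => absurd hh.2 q4.ne', (p5.trans_lt q3).le,
        fun _ => p5.trans_lt q3⟩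
  obtain ⟨p, p1, -, -, -, -, p6⟩ := key N
  have p7 := p6 hN
  rw [hP.W, hP.F, hP.G, (W i).lt_iff_lt, (F i).lt_iff_lt, (G i).symm.lt_iff_lt] at p7
  exact absurd p7 (not_lt.mpr p1)

theorem BChain.noboth' (h : BChain X V W G F R) (hP : BPer N X V W G F R) (hN : 0 < N) (i : ℕ)
    (y : Ω) (hA : X i (G i (V i (V i (R i y)))) ≤ y) (hC : W i (F i ((G i).symm y)) ≤ y) :
    X i (G i (V i (V i (R i y)))) = y ∧ W i (F i ((G i).symm y)) = y :=
  BChain.noboth (Ω := Ωᵒᵈ) h.dual hP.dual hN i y hA hC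

/-- The three types. -/
theorem BChain.tri (h : BChain X V W G F R) (hP : BPer N X V W G F R) (hN : 0 < N) (i : ℕ)
    (y : Ω) :
    (y < W i (F i ((G i).symm y)) ∧ X i (G i (V i (V i (R i y)))) < y) ∨
    (W i (F i ((G i).symm y)) < y ∧ y < X i (G i (V i (V i (R i y))))) ∨
    (X i y = y ∧ V i y = y) := by
  have hfix : X i (G i (V i (V i (R i y)))) = y → W i (F i ((G i).symm y)) = y →
      X i y = y ∧ V i y = y := by
    intro e1 e2
    rcases le_total y (X i y) with h1 | h1
    · obtain ⟨a, b, _⟩ := (h.st i).xdown e1.ge e2.ge h1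
      exact ⟨a, b⟩
    · obtain ⟨a, b, _⟩ := BStage.xdown (Ω := Ωᵒᵈ) (h.st i).dual (y := y) e1.le e2.le h1
      exact ⟨a, b⟩
  rcases lt_trichotomy y (W i (F i ((G i).symm y))) with h1 | h1 | h1
  · rcases lt_or_ge (X i (G i (V i (V i (R i y))))) y with h2 | h2
    · exact Or.inl ⟨h1, h2⟩
    · exact absurd (h.noboth hP hN i y h2 h1.le).2 h1.ne'
  · rcases le_total y (X i (G i (V i (V i (R i y))))) with h2 | h2
    · have h3 := h.noboth hP hN i y h2 h1.le
      exact Or.inr (Or.inr (hfix h3.1 h3.2))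
    · have h3 := h.noboth' hP hN i y h2 h1.ge
      exact Or.inr (Or.inr (hfix h3.1 h3.2))
  · rcases lt_or_ge y (X i (G i (V i (V i (R i y))))) with h2 | h2
    · exact Or.inr (Or.inl ⟨h1, h2⟩)
    · exact absurd (h.noboth' hP hN i y h2 h1.le).2 h1.ne

/-- In the first type `y < W y`. -/
theorem BChain.w_up (h : BChain X V W G F R) (hP : BPer N X V W G F R) (hN : 0 < N) (i : ℕ)
    (y : Ω) (hC : y < W i (F i ((G i).symm y))) (hA : X i (G i (V i (V i (R i y)))) < y) :
    y < W i y := by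
  by_contra h1
  rw [not_lt] at h1
  rcases (h.st i).wup hC hA h1 with ⟨p, p1, p2⟩ | ⟨p1, p2⟩
  · rw [← h.linkA] at p1
    rw [← h.linkC] at p2
    exact absurd (h.noboth hP hN (i + 1) p p1 p2.le).2 p2.ne'
  · rw [← h.linkA] at p1
    rw [← h.linkC] at p2
    exact absurd (h.noboth' hP hN (i + 1) y p1.le p2).1 p1.ne

/-- The first type is kept. -/
theorem BChain.keep (h : BChain X V W G F R) (hP : BPer N X V W G F R) (hN : 0 < N) (i : ℕ)
    (y : Ω) (hC : y < W i (F i ((G i).symm y))) (hA : X i (G i (V i (V i (R i y)))) < y) :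
    y < W (i + 1) (F (i + 1) ((G (i + 1)).symm y)) ∧
      X (i + 1) (G (i + 1) (V (i + 1) (V (i + 1) (R (i + 1) y)))) < y := by
  have hw := h.w_up hP hN i y hC hA
  have key : W (i + 1) (F (i + 1) ((G (i + 1)).symm y)) ≤ y →
      X (i + 1) (G (i + 1) (V (i + 1) (V (i + 1) (R (i + 1) y)))) < y := by
    intro h1
    rw [h.linkC] at h1
    rw [h.linkA]
    exact (h.st i).stay hC hw h1
  rcases h.tri hP hN (i + 1) y with h1 | ⟨h1, h2⟩ | ⟨h1, h2⟩
  · exact h1
  · exact absurd (key h1.le) (not_lt.mpr h2.le)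
  · have h3 := key ((h.st (i + 1)).C_fix h1 h2).le
    rw [(h.st (i + 1)).A_fix h1 h2] at h3
    exact absurd h3 (lt_irrefl _)

/-- The first type is impossible. -/
theorem BChain.no_first (h : BChain X V W G F R) (hP : BPer N X V W G F R) (hN : 0 < N) (i : ℕ)
    (y : Ω) (hC : y < W i (F i ((G i).symm y)))
    (hA : X i (G i (V i (V i (R i y)))) < y) : False := by
  have key : ∀ j, i ≤ j → y < W j (F j ((G j).symm y)) ∧
      X j (G j (V j (V j (R j y)))) < y := by
    intro j hj
    induction j, hj using Nat.le_induction with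
    | base => exact ⟨hC, hA⟩
    | succ j _ ih => exact h.keep hP hN j y ih.1 ih.2
  refine no_incr (u := fun j => X j (G j (V j (V j (R j y))))) (i := i) hN ?_ ?_
  · show X (i + N) (G (i + N) (V (i + N) (V (i + N) (R (i + N) y)))) = _
    rw [hP.X, hP.V, hP.R, hP.G]
  · intro j hj
    show X j (G j (V j (V j (R j y)))) <
      X (j + 1) (G (j + 1) (V (j + 1) (V (j + 1) (R (j + 1) y))))
    rw [h.linkA, (h.st j).A'_eq]
    have hw := h.w_up hP hN j y (key j hj).1 (key j hj).2
    exact (X j).lt_iff_lt.mpr ((G j).lt_iff_lt.mpr ((V j).lt_iff_lt.mpr ((V j).lt_iff_lt.mpr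
      ((R j).lt_iff_lt.mpr hw))))

/-- every point is fixed by all `X j`, `V j`. -/
theorem BChain.fixed (h : BChain X V W G F R) (hP : BPer N X V W G F R) (hN : 0 < N) (j : ℕ)
    (y : Ω) : X j y = y ∧ V j y = y := by
  rcases h.tri hP hN j y with ⟨h1, h2⟩ | ⟨h1, h2⟩ | h1
  · exact (h.no_first hP hN j y h1 h2).elim
  · exact (BChain.no_first (Ω := Ωᵒᵈ) h.dual hP.dual hN j y h1 h2).elim
  · exact h1

end chain

end Pool.Agent.L7h80.PC
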